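import Pool.Agent.Helper44.GH.Stmts
import Pool.Agent.Helper67.LB.PLn
import Pool.Agent.Helper94.GF.LINK

open Finset MeasureTheory Filter Topology Matrix
open scoped ENNReal ContDiff

namespace Pool.Agent.Helper44.GH

open Pool.Agent.Helper44.GF Pool.Agent.Helper44.GN

/-! ### Step 1: the pointwise inequality -/

theorem bl_amgm {e w k D : ℝ} (hD : 0 < D) :
    e * w * k - D * k ^ 2 / 2 ≤ e ^ 2 * (w ^ 2 / D) / 2 := by
  have h1 : e ^ 2 * (w ^ 2 / D) / 2 - (e * w * k - D * k ^ 2 / 2)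
      = (e * w - D * k) ^ 2 / (2 * D) := by
    field_simp
    ring
  have h2 : 0 ≤ (e * w - D * k) ^ 2 / (2 * D) := by positivity
  linarith

theorem bl_one {c L C D e w k S : ℝ} (hc : 0 < c) (hL : 0 ≤ L) (hC : 0 ≤ C) (hD : c ≤ D)
    (he : 0 < e) (heC : e * C ≤ c / 4) (hw : |w| ≤ C) (h1 : c * k ^ 2 ≤ S)
    (h2 : D * k ^ 2 - L * |k| ^ 3 ≤ S) :
    e * w * k + e * C * k ^ 2 - S / 2
      ≤ e ^ 2 * (w ^ 2 / D) / 2 + (C * (4 * C / c) ^ 2 + L * (4 * C / c) ^ 3 / 2) * e ^ 3 := by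
  have hD0 : 0 < D := lt_of_lt_of_le hc hD
  set K1 : ℝ := 4 * C / c with hK1
  have hK0 : 0 ≤ K1 := by positivity
  have hk0 : 0 ≤ |k| := abs_nonneg k
  have hkk : k ^ 2 = |k| ^ 2 := (sq_abs k).symm
  by_cases hk : |k| ≤ K1 * e
  · have h3 := bl_amgm (e := e) (w := w) (k := k) hD0
    have h4 : k ^ 2 ≤ K1 ^ 2 * e ^ 2 := by
      rw [hkk, ← mul_pow]
      exact pow_le_pow_left₀ hk0 hk 2
    have h5 : |k| ^ 3 ≤ K1 ^ 3 * e ^ 3 := by
      rw [← mul_pow]
      exact pow_le_pow_left₀ hk0 hk 3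
    have h6 : e * C * k ^ 2 ≤ e * C * (K1 ^ 2 * e ^ 2) :=
      mul_le_mul_of_nonneg_left h4 (by positivity)
    have h7 : L * |k| ^ 3 ≤ L * (K1 ^ 3 * e ^ 3) := mul_le_mul_of_nonneg_left h5 hL
    nlinarith [h2, h3, h6, h7]
  · push Not at hk
    have h3 : e * w * k ≤ e * C * |k| := by
      have h31 : e * w * k ≤ |e * w * k| := le_abs_self _
      rw [abs_mul, abs_mul, abs_of_pos he] at h31
      have h32 : e * |w| * |k| ≤ e * C * |k| := by gcongr
      linarith
    have h4 : e * C * k ^ 2 ≤ c / 4 * k ^ 2 := mul_le_mul_of_nonneg_right heC (sq_nonneg k)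
    have h5 : e * C ≤ c / 4 * |k| := by
      have h51 : K1 * e * c ≤ |k| * c := mul_le_mul_of_nonneg_right hk.le hc.le
      have h52 : K1 * e * c = 4 * C * e := by
        rw [hK1]; field_simp
      nlinarith
    have h6 : e * C * |k| ≤ c / 4 * k ^ 2 := by
      rw [hkk]
      nlinarith [mul_le_mul_of_nonneg_right h5 hk0]
    have h7 : 0 ≤ e ^ 2 * (w ^ 2 / D) / 2 := by positivity
    have h8 : 0 ≤ (C * K1 ^ 2 + L * K1 ^ 3 / 2) * e ^ 3 := by positivity
    nlinarith [h1, h3, h4, h6, h7, h8]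

section Main

variable {n m : ℕ} (V : Matrix (Fin n) (Fin m) ℝ) (g D : ℝ → ℝ) (c L C : ℝ)
    (f : (Fin n → ℝ) → ℝ) (w : Fin n → (Fin n → ℝ) → ℝ)

/-- the density -/
noncomputable def bl_E (x : Fin m → ℝ) : ℝ := Real.exp (-∑ i, g (V.mulVec x i))

/-- the gradient term -/
noncomputable def bl_A (x : Fin m → ℝ) : ℝ := ∑ i, w i (V.mulVec x) ^ 2 / D (V.mulVec x i)

theorem bl_point (h : BH g D c L C f w) {e : ℝ} (he : 0 < e) (heC : e * C ≤ c / 4)
    (x y : Fin m → ℝ) :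
    (e * f (V.mulVec x) - ∑ i, g (V.mulVec x i)) * (1 / 2)
      + (-(e * f (V.mulVec y)) - ∑ i, g (V.mulVec y i)) * (1 / 2)
    ≤ e ^ 2 * bl_A V D w ((1 / 2 : ℝ) • x + (1 / 2 : ℝ) • y) / 2
      + n * (C * (4 * C / c) ^ 2 + L * (4 * C / c) ^ 3 / 2) * e ^ 3
      - ∑ i, g (V.mulVec ((1 / 2 : ℝ) • x + (1 / 2 : ℝ) • y) i) := by
  set z : Fin m → ℝ := (1 / 2 : ℝ) • x + (1 / 2 : ℝ) • y with hz
  set k : Fin n → ℝ := V.mulVec ((1 / 2 : ℝ) • x - (1 / 2 : ℝ) • y) with hk
  have hx : V.mulVec x = V.mulVec z + k := by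
    rw [hk, ← Matrix.mulVec_add]
    congr 1
    rw [hz]
    funext j
    simp only [Pi.add_apply, Pi.sub_apply, Pi.smul_apply, smul_eq_mul]
    ring
  have hy : V.mulVec y = V.mulVec z + (-k) := by
    rw [hk, ← Matrix.mulVec_neg, ← Matrix.mulVec_add]
    congr 1
    rw [hz]
    funext j
    simp only [Pi.add_apply, Pi.sub_apply, Pi.smul_apply, Pi.neg_apply, smul_eq_mul]
    ring
  have h1 := h.tay (V.mulVec z) k
  have h2 := h.tay (V.mulVec z) (-k)
  have h1' := (abs_le.1 h1).2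
  have h2' := (abs_le.1 h2).1
  have h3 : ∑ i, w i (V.mulVec z) * (-k) i = -∑ i, w i (V.mulVec z) * k i := by
    rw [← Finset.sum_neg_distrib]
    refine Finset.sum_congr rfl fun i _ => ?_
    simp only [Pi.neg_apply]
    ring
  have h4 : ∑ i, (-k) i ^ 2 = ∑ i, k i ^ 2 := by
    refine Finset.sum_congr rfl fun i _ => ?_
    simp only [Pi.neg_apply]
    ring
  rw [h3, h4] at h2'
  have h5 : ∀ i, e * w i (V.mulVec z) * k i + e * C * k i ^ 2
      - (g (V.mulVec z i + k i) + g (V.mulVec z i - k i) - 2 * g (V.mulVec z i)) / 2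
      ≤ e ^ 2 * (w i (V.mulVec z) ^ 2 / D (V.mulVec z i)) / 2
        + (C * (4 * C / c) ^ 2 + L * (4 * C / c) ^ 3 / 2) * e ^ 3 := fun i =>
    bl_one h.c0 h.L0 h.C0 (h.Dl _) he heC (h.w1 i _) (h.g1 _ _) (h.g2 _ _)
  have h6 := Finset.sum_le_sum (s := (univ : Finset (Fin n))) fun i _ => h5 i
  have e1 : ∑ i, (e * w i (V.mulVec z) * k i + e * C * k i ^ 2
      - (g (V.mulVec z i + k i) + g (V.mulVec z i - k i) - 2 * g (V.mulVec z i)) / 2)
      = e * ∑ i, w i (V.mulVec z) * k i + e * (C * ∑ i, k i ^ 2)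
        - (∑ i, g (V.mulVec z i + k i)) / 2 - (∑ i, g (V.mulVec z i - k i)) / 2
        + ∑ i, g (V.mulVec z i) := by
    rw [Finset.mul_sum, Finset.mul_sum, Finset.mul_sum, Finset.sum_div, Finset.sum_div,
      ← Finset.sum_add_distrib, ← Finset.sum_sub_distrib, ← Finset.sum_sub_distrib,
      ← Finset.sum_add_distrib]
    refine Finset.sum_congr rfl fun i _ => ?_
    ring
  have e2 : ∑ i, (e ^ 2 * (w i (V.mulVec z) ^ 2 / D (V.mulVec z i)) / 2
        + (C * (4 * C / c) ^ 2 + L * (4 * C / c) ^ 3 / 2) * e ^ 3)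
      = e ^ 2 * bl_A V D w z / 2
        + n * (C * (4 * C / c) ^ 2 + L * (4 * C / c) ^ 3 / 2) * e ^ 3 := by
    rw [Finset.sum_add_distrib, Finset.sum_const, Finset.card_univ, Fintype.card_fin,
      nsmul_eq_mul, bl_A, Finset.mul_sum, Finset.sum_div]
    ring
  rw [e1, e2] at h6
  have e3 : ∑ i, g (V.mulVec x i) = ∑ i, g (V.mulVec z i + k i) := by
    rw [hx]; rfl
  have e4 : ∑ i, g (V.mulVec y i) = ∑ i, g (V.mulVec z i - k i) := by
    rw [hy]
    refine Finset.sum_congr rfl fun i _ => ?_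
    rw [Pi.add_apply, Pi.neg_apply, sub_eq_add_neg]
  rw [e3, e4, hx, hy]
  have h7 : e * (f (V.mulVec z + k) - f (V.mulVec z + -k))
      ≤ e * (2 * ∑ i, w i (V.mulVec z) * k i + 2 * (C * ∑ i, k i ^ 2)) := by
    refine mul_le_mul_of_nonneg_left ?_ he.le
    linarith
  linarith

/-! ### Integrability -/

theorem bl_cont_mulVec (i : Fin n) : Continuous (fun x : Fin m → ℝ => V.mulVec x i) := by
  unfold Matrix.mulVec dotProduct
  fun_prop

theorem bl_cont_mulVec' : Continuous (fun x : Fin m → ℝ => V.mulVec x) :=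
  continuous_pi fun i => bl_cont_mulVec V i

theorem bl_E_cont (h : BH g D c L C f w) : Continuous (bl_E V g) := by
  unfold bl_E
  refine Real.continuous_exp.comp (Continuous.neg ?_)
  exact continuous_finset_sum _ fun i _ => h.gc.comp (bl_cont_mulVec V i)

theorem bl_E_int (hV : Function.Injective V.mulVec) (h : BH g D c L C f w) :
    Integrable (bl_E V g) := by
  have h1 := (link_gauss V hV (fun _ => c / 4) (fun _ => by have := h.c0; positivity)).1
  refine h1.mono' (bl_E_cont V g D c L C f w h).aestronglyMeasurable ?_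
  refine Filter.Eventually.of_forall fun x => ?_
  rw [Real.norm_eq_abs, bl_E, abs_of_pos (Real.exp_pos _)]
  refine Real.exp_le_exp.2 (neg_le_neg (Finset.sum_le_sum fun i _ => h.gl _))

theorem bl_bdd_int (hV : Function.Injective V.mulVec) (h : BH g D c L C f w)
    {u : (Fin m → ℝ) → ℝ} (hu : Continuous u) {M : ℝ} (hM : ∀ x, |u x| ≤ M) :
    Integrable (fun x => u x * bl_E V g x) := by
  refine (bl_E_int V g D c L C f w hV h).bdd_mul (c := M) hu.aestronglyMeasurable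
    (Filter.Eventually.of_forall fun x => ?_)
  rw [Real.norm_eq_abs]
  exact hM x

theorem bl_A_cont (h : BH g D c L C f w) : Continuous (bl_A V D w) := by
  unfold bl_A
  refine continuous_finset_sum _ fun i _ => ?_
  refine Continuous.div ((h.wc i).comp (bl_cont_mulVec' V) |>.pow 2)
    (h.Dc.comp (bl_cont_mulVec V i)) fun x => ?_
  exact (lt_of_lt_of_le h.c0 (h.Dl _)).ne'

theorem bl_A_nonneg (h : BH g D c L C f w) (x : Fin m → ℝ) : 0 ≤ bl_A V D w x := by
  unfold bl_A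
  refine Finset.sum_nonneg fun i _ => div_nonneg (sq_nonneg _) ?_
  exact (lt_of_lt_of_le h.c0 (h.Dl _)).le

theorem bl_A_le (h : BH g D c L C f w) (x : Fin m → ℝ) :
    bl_A V D w x ≤ n * (C ^ 2 / c) := by
  unfold bl_A
  have h1 : ∀ i ∈ (univ : Finset (Fin n)),
      w i (V.mulVec x) ^ 2 / D (V.mulVec x i) ≤ C ^ 2 / c := by
    intro i _
    refine div_le_div₀ (sq_nonneg C) ?_ h.c0 (h.Dl _)
    rw [← sq_abs]
    exact pow_le_pow_left₀ (abs_nonneg _) (h.w1 i _) 2
  have h2 := Finset.sum_le_sum h1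
  rwa [Finset.sum_const, Finset.card_univ, Fintype.card_fin, nsmul_eq_mul] at h2

end Main

/-! ### Step 2 : Prekopa-Leindler -/

theorem bl_pl {m : ℕ} {p q s : (Fin m → ℝ) → ℝ} (hp : Continuous p) (hq : Continuous q)
    (hs : Continuous s) (ip : Integrable fun x => Real.exp (p x))
    (iq : Integrable fun x => Real.exp (q x)) (is : Integrable fun x => Real.exp (s x))
    (H : ∀ x y, p x * (1 / 2) + q y * (1 / 2) ≤ s ((1 / 2 : ℝ) • x + (1 / 2 : ℝ) • y)) :
    (∫ x, Real.exp (p x)) * (∫ x, Real.exp (q x)) ≤ (∫ x, Real.exp (s x)) ^ 2 := by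
  have mp : Measurable fun x => ENNReal.ofReal (Real.exp (p x)) :=
    (Real.continuous_exp.comp hp).measurable.ennreal_ofReal
  have mq : Measurable fun x => ENNReal.ofReal (Real.exp (q x)) :=
    (Real.continuous_exp.comp hq).measurable.ennreal_ofReal
  have ms : Measurable fun x => ENNReal.ofReal (Real.exp (s x)) :=
    (Real.continuous_exp.comp hs).measurable.ennreal_ofReal
  have h1 := Pool.Agent.Helper67.LB.pl_pi m mp mq ms (l := 1 / 2) (m := 1 / 2) (by norm_num)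
    (by norm_num) (by norm_num) (by
      intro x y
      rw [ENNReal.ofReal_rpow_of_pos (Real.exp_pos _), ENNReal.ofReal_rpow_of_pos (Real.exp_pos _),
        ← ENNReal.ofReal_mul (Real.rpow_nonneg (Real.exp_pos _).le _), ← Real.exp_mul,
        ← Real.exp_mul, ← Real.exp_add]
      exact ENNReal.ofReal_le_ofReal (Real.exp_le_exp.2 (H x y)))
  rw [← ofReal_integral_eq_lintegral_ofReal ip
      (Filter.Eventually.of_forall fun x => (Real.exp_pos _).le),
    ← ofReal_integral_eq_lintegral_ofReal iq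
      (Filter.Eventually.of_forall fun x => (Real.exp_pos _).le),
    ← ofReal_integral_eq_lintegral_ofReal is
      (Filter.Eventually.of_forall fun x => (Real.exp_pos _).le)] at h1
  have p0 : 0 ≤ ∫ x, Real.exp (p x) := integral_nonneg fun x => (Real.exp_pos _).le
  have q0 : 0 ≤ ∫ x, Real.exp (q x) := integral_nonneg fun x => (Real.exp_pos _).le
  have s0 : 0 ≤ ∫ x, Real.exp (s x) := integral_nonneg fun x => (Real.exp_pos _).le
  rw [ENNReal.ofReal_rpow_of_nonneg p0 (by norm_num),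
    ENNReal.ofReal_rpow_of_nonneg q0 (by norm_num),
    ← ENNReal.ofReal_mul (Real.rpow_nonneg p0 _), ENNReal.ofReal_le_ofReal_iff s0,
    ← Real.sqrt_eq_rpow, ← Real.sqrt_eq_rpow, ← Real.sqrt_mul p0] at h1
  rw [← Real.sq_sqrt (mul_nonneg p0 q0)]
  exact pow_le_pow_left₀ (Real.sqrt_nonneg _) h1 2

/-! ### Step 3 : elementary bounds of the exponential -/

theorem bl_exp_lower {s : ℝ} (hs : |s| ≤ 1) : 1 + s + s ^ 2 / 2 - |s| ^ 3 ≤ Real.exp s := by
  have h := Real.exp_bound hs (n := 3) (by norm_num)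
  have h1 : ∑ i ∈ Finset.range 3, s ^ i / (Nat.factorial i : ℝ) = 1 + s + s ^ 2 / 2 := by
    simp [Finset.sum_range_succ, Nat.factorial]
  rw [h1] at h
  have h2 := (abs_le.1 h).1
  have h3 : |s| ^ 3 * (((3 : ℕ).succ : ℝ) / (((3 : ℕ).factorial : ℝ) * ((3 : ℕ) : ℝ)))
      ≤ |s| ^ 3 := by
    have : (((3 : ℕ).succ : ℝ) / (((3 : ℕ).factorial : ℝ) * ((3 : ℕ) : ℝ))) ≤ 1 := by
      norm_num [Nat.factorial]
    exact mul_le_of_le_one_right (by positivity) this
  linarith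

theorem bl_exp_upper {s : ℝ} (hs0 : 0 ≤ s) (hs : s ≤ 1) : Real.exp s ≤ 1 + s + s ^ 2 := by
  have h := Real.abs_exp_sub_one_sub_id_le (x := s) (by rw [abs_of_nonneg hs0]; exact hs)
  have h1 := (abs_le.1 h).2
  linarith

theorem bl_limit {a b K e0 : ℝ} (he0 : 0 < e0)
    (h : ∀ e : ℝ, 0 < e → e ≤ e0 → e ^ 2 * a ≤ e ^ 2 * b + K * e ^ 3) : a ≤ b := by
  by_contra hab
  push Not at hab
  set d : ℝ := a - b with hd
  have hd0 : 0 < d := by linarith
  set e : ℝ := min e0 (d / (2 * (|K| + 1))) with he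
  have hK : 0 < |K| + 1 := by positivity
  have he1 : 0 < e := lt_min he0 (by positivity)
  have he2 : e ≤ e0 := min_le_left _ _
  have he3 : e ≤ d / (2 * (|K| + 1)) := min_le_right _ _
  have h1 := h e he1 he2
  have h2 : e * (|K| + 1) ≤ d / 2 := by
    calc e * (|K| + 1) ≤ d / (2 * (|K| + 1)) * (|K| + 1) := by gcongr
      _ = d / 2 := by field_simp
  have h3 : K * e ^ 3 ≤ e ^ 2 * (e * (|K| + 1)) := by
    have : K ≤ |K| + 1 := by have := le_abs_self K; linarith
    calc K * e ^ 3 ≤ (|K| + 1) * e ^ 3 := by gcongr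
      _ = e ^ 2 * (e * (|K| + 1)) := by ring
  have h4 : e ^ 2 * (e * (|K| + 1)) ≤ e ^ 2 * (d / 2) :=
    mul_le_mul_of_nonneg_left h2 (sq_nonneg e)
  have h5 : 0 < e ^ 2 * (d / 2) := by positivity
  have h6 : e ^ 2 * a - e ^ 2 * b = e ^ 2 * d := by rw [hd]; ring
  nlinarith

/-- The algebra of the expansion. -/
theorem bl_alg {I0 I1 I2 IA P Q R C e K2 : ℝ} (hI0 : 0 ≤ I0) (hI2 : 0 ≤ I2) (hIA : 0 ≤ IA)
    (hC : 0 ≤ C) (he : 0 < e) (he1 : e ≤ 1) (heC : e * C ≤ 1 / 2) (hI1 : |I1| ≤ C * I0)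
    (hK2 : 0 ≤ K2)
    (hP : I0 + e * I1 + e ^ 2 * I2 / 2 - C ^ 3 * e ^ 3 * I0 ≤ P)
    (hQ : I0 - e * I1 + e ^ 2 * I2 / 2 - C ^ 3 * e ^ 3 * I0 ≤ Q)
    (hR : R ≤ I0 + e ^ 2 * IA / 2 + e ^ 3 * K2 * I0) (hR0 : 0 ≤ R) (h : P * Q ≤ R ^ 2) :
    e ^ 2 * (I0 * I2 - I1 ^ 2) ≤ e ^ 2 * (I0 * IA)
      + (2 * C ^ 3 * I0 ^ 2 + 2 * K2 * I0 ^ 2 + (IA / 2 + K2 * I0) ^ 2) * e ^ 3 := by
  have hx0 : 0 ≤ e * C := by positivity
  have hx3 : C ^ 3 * e ^ 3 ≤ 1 / 8 := by
    have : C ^ 3 * e ^ 3 = (e * C) ^ 3 := by ring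
    rw [this]
    calc (e * C) ^ 3 ≤ (1 / 2) ^ 3 := pow_le_pow_left₀ hx0 heC 3
      _ = 1 / 8 := by norm_num
  have hx3' : 0 ≤ C ^ 3 * e ^ 3 := by positivity
  set a : ℝ := I0 + e ^ 2 * I2 / 2 - C ^ 3 * e ^ 3 * I0 with ha
  have hb : |e * I1| ≤ I0 / 2 := by
    rw [abs_mul, abs_of_pos he]
    calc e * |I1| ≤ e * (C * I0) := mul_le_mul_of_nonneg_left hI1 he.le
      _ = (e * C) * I0 := by ring
      _ ≤ 1 / 2 * I0 := mul_le_mul_of_nonneg_right heC hI0
      _ = I0 / 2 := by ring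
  have hb1 := (abs_le.1 hb).1
  have hb2 := (abs_le.1 hb).2
  have hy : C ^ 3 * e ^ 3 * I0 ≤ 1 / 8 * I0 := mul_le_mul_of_nonneg_right hx3 hI0
  have hy2 : 0 ≤ e ^ 2 * I2 / 2 := by positivity
  have hP0 : 0 ≤ a + e * I1 := by rw [ha]; linarith
  have hQ0 : 0 ≤ a - e * I1 := by rw [ha]; linarith
  have h1 : (a + e * I1) * (a - e * I1) ≤ P * Q := by
    refine mul_le_mul (by rw [ha]; linarith) (by rw [ha]; linarith) hQ0 ?_
    refine le_trans hP0 (by rw [ha]; linarith)
  have h2 : I0 ^ 2 + e ^ 2 * (I0 * I2) - 2 * C ^ 3 * e ^ 3 * I0 ^ 2 ≤ a ^ 2 := by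
    have : a ^ 2 = I0 ^ 2 + e ^ 2 * (I0 * I2) - 2 * C ^ 3 * e ^ 3 * I0 ^ 2
        + (e ^ 2 * I2 / 2 - C ^ 3 * e ^ 3 * I0) ^ 2 := by rw [ha]; ring
    rw [this]
    have := sq_nonneg (e ^ 2 * I2 / 2 - C ^ 3 * e ^ 3 * I0)
    linarith
  have h3 : R ^ 2 ≤ (I0 + e ^ 2 * IA / 2 + e ^ 3 * K2 * I0) ^ 2 := pow_le_pow_left₀ hR0 hR 2
  have h4 : (I0 + e ^ 2 * IA / 2 + e ^ 3 * K2 * I0) ^ 2
      = I0 ^ 2 + e ^ 2 * (I0 * IA) + 2 * K2 * I0 ^ 2 * e ^ 3
        + e ^ 4 * (IA / 2 + e * (K2 * I0)) ^ 2 := by ring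
  have h5 : e ^ 4 * (IA / 2 + e * (K2 * I0)) ^ 2 ≤ (IA / 2 + K2 * I0) ^ 2 * e ^ 3 := by
    have h51 : (IA / 2 + e * (K2 * I0)) ^ 2 ≤ (IA / 2 + K2 * I0) ^ 2 := by
      refine pow_le_pow_left₀ (by positivity) ?_ 2
      have : e * (K2 * I0) ≤ 1 * (K2 * I0) :=
        mul_le_mul_of_nonneg_right he1 (mul_nonneg hK2 hI0)
      linarith
    have h52 : e ^ 4 ≤ e ^ 3 := by
      have : e ^ 4 = e ^ 3 * e := by ring
      rw [this]
      exact mul_le_of_le_one_right (by positivity) he1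
    calc e ^ 4 * (IA / 2 + e * (K2 * I0)) ^ 2 ≤ e ^ 3 * (IA / 2 + K2 * I0) ^ 2 := by gcongr
      _ = _ := by ring
  have h6 : (a + e * I1) * (a - e * I1) = a ^ 2 - e ^ 2 * I1 ^ 2 := by ring
  nlinarith [h1, h2, h3, h4, h5, h6, h]

theorem st_BL : ST_BL := by
  intro n m V g D c L C f w hV h
  have hc := h.c0
  have hL := h.L0
  have hC := h.C0
  set E : (Fin m → ℝ) → ℝ := bl_E V g with hE
  set F : (Fin m → ℝ) → ℝ := fun x => f (V.mulVec x) with hF
  set A : (Fin m → ℝ) → ℝ := bl_A V D w with hA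
  have hEc : Continuous E := bl_E_cont V g D c L C f w h
  have hFc : Continuous F := h.fc.comp (bl_cont_mulVec' V)
  have hAc : Continuous A := bl_A_cont V g D c L C f w h
  have hA0 : ∀ x, 0 ≤ A x := bl_A_nonneg V g D c L C f w h
  set M : ℝ := n * (C ^ 2 / c) with hM
  have hM0 : 0 ≤ M := by positivity
  have hA1 : ∀ x, A x ≤ M := bl_A_le V g D c L C f w h
  have hF1 : ∀ x, |F x| ≤ C := fun x => h.f1 _
  have hE0 : ∀ x, 0 < E x := fun x => Real.exp_pos _
  have iE : Integrable E := bl_E_int V g D c L C f w hV h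
  have iB : ∀ {u : (Fin m → ℝ) → ℝ}, Continuous u → ∀ {M : ℝ}, (∀ x, |u x| ≤ M) →
      Integrable (fun x => u x * E x) := fun hu _ hM => bl_bdd_int V g D c L C f w hV h hu hM
  have iF : Integrable (fun x => F x * E x) := iB hFc hF1
  have iF2 : Integrable (fun x => F x ^ 2 * E x) := by
    refine iB (hFc.pow 2) (M := C ^ 2) fun x => ?_
    rw [abs_pow]
    exact pow_le_pow_left₀ (abs_nonneg _) (hF1 x) 2
  have iA : Integrable (fun x => A x * E x) := by
    refine iB hAc (M := M) fun x => ?_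
    rw [abs_of_nonneg (hA0 x)]
    exact hA1 x
  show (∫ x, E x) * (∫ x, F x ^ 2 * E x) - (∫ x, F x * E x) ^ 2
    ≤ (∫ x, E x) * ∫ x, A x * E x
  set I0 : ℝ := ∫ x, E x with hI0
  set I1 : ℝ := ∫ x, F x * E x with hI1
  set I2 : ℝ := ∫ x, F x ^ 2 * E x with hI2
  set IA : ℝ := ∫ x, A x * E x with hIA
  have I0n : 0 ≤ I0 := integral_nonneg fun x => (hE0 x).le
  have I2n : 0 ≤ I2 := integral_nonneg fun x => mul_nonneg (sq_nonneg _) (hE0 x).le
  have IAn : 0 ≤ IA := integral_nonneg fun x => mul_nonneg (hA0 x) (hE0 x).le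
  have I1b : |I1| ≤ C * I0 := by
    rw [hI1, hI0, ← integral_const_mul]
    refine (abs_integral_le_integral_abs).trans ?_
    refine integral_mono iF.abs (iE.const_mul C) fun x => ?_
    show |F x * E x| ≤ C * E x
    rw [abs_mul, abs_of_pos (hE0 x)]
    exact mul_le_mul_of_nonneg_right (hF1 x) (hE0 x).le
  set K1 : ℝ := n * (C * (4 * C / c) ^ 2 + L * (4 * C / c) ^ 3 / 2) with hK1
  have hK1n : 0 ≤ K1 := by positivity
  set N : ℝ := M / 2 + K1 with hN
  have hNn : 0 ≤ N := by positivity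
  set K2 : ℝ := K1 + N ^ 2 with hK2
  have hK2n : 0 ≤ K2 := by positivity
  set e0 : ℝ := min 1 (min (1 / (2 * (C + 1))) (min (c / (4 * (C + 1))) (1 / (N + 1)))) with he0
  have he00 : 0 < e0 := by
    refine lt_min one_pos (lt_min (by positivity) (lt_min (by positivity) (by positivity)))
  refine bl_limit (a := I0 * I2 - I1 ^ 2) (b := I0 * IA)
    (K := 2 * C ^ 3 * I0 ^ 2 + 2 * K2 * I0 ^ 2 + (IA / 2 + K2 * I0) ^ 2) he00 ?_
  intro e he hee
  have he1 : e ≤ 1 := hee.trans (min_le_left _ _)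
  have he2 : e ≤ 1 / (2 * (C + 1)) := hee.trans ((min_le_right _ _).trans (min_le_left _ _))
  have he3 : e ≤ c / (4 * (C + 1)) :=
    hee.trans ((min_le_right _ _).trans ((min_le_right _ _).trans (min_le_left _ _)))
  have he4 : e ≤ 1 / (N + 1) :=
    hee.trans ((min_le_right _ _).trans ((min_le_right _ _).trans (min_le_right _ _)))
  have hC1 : 0 < C + 1 := by positivity
  have heC : e * C ≤ 1 / 2 := by
    calc e * C ≤ 1 / (2 * (C + 1)) * (C + 1) := by
          refine mul_le_mul he2 (by linarith) hC (by positivity)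
      _ = 1 / 2 := by field_simp
  have heC4 : e * C ≤ c / 4 := by
    calc e * C ≤ c / (4 * (C + 1)) * (C + 1) := by
          refine mul_le_mul he3 (by linarith) hC (by positivity)
      _ = c / 4 := by field_simp
  have heN : e * N ≤ 1 := by
    have hN1 : 0 < N + 1 := by positivity
    calc e * N ≤ 1 / (N + 1) * (N + 1) := by
          refine mul_le_mul he4 (by linarith) hNn (by positivity)
      _ = 1 := by field_simp
  -- the three functions
  set p : (Fin m → ℝ) → ℝ := fun x => e * F x - ∑ i, g (V.mulVec x i) with hp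
  set q : (Fin m → ℝ) → ℝ := fun x => -(e * F x) - ∑ i, g (V.mulVec x i) with hq
  set s : (Fin m → ℝ) → ℝ := fun x => e ^ 2 * A x / 2 + K1 * e ^ 3
    - ∑ i, g (V.mulVec x i) with hs
  have hgc : Continuous (fun x : Fin m → ℝ => ∑ i, g (V.mulVec x i)) :=
    continuous_finset_sum _ fun i _ => h.gc.comp (bl_cont_mulVec V i)
  have pc : Continuous p := (hFc.const_mul e).sub hgc
  have qc : Continuous q := (hFc.const_mul e).neg.sub hgc
  have sc : Continuous s := (((hAc.const_mul (e ^ 2)).div_const 2).add continuous_const).sub hgc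
  have pe : ∀ x, Real.exp (p x) = Real.exp (e * F x) * E x := by
    intro x
    show Real.exp (e * F x - ∑ i, g (V.mulVec x i))
      = Real.exp (e * F x) * Real.exp (-∑ i, g (V.mulVec x i))
    rw [← Real.exp_add, sub_eq_add_neg]
  have qe : ∀ x, Real.exp (q x) = Real.exp (-(e * F x)) * E x := by
    intro x
    show Real.exp (-(e * F x) - ∑ i, g (V.mulVec x i))
      = Real.exp (-(e * F x)) * Real.exp (-∑ i, g (V.mulVec x i))
    rw [← Real.exp_add, sub_eq_add_neg]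
  have se : ∀ x, Real.exp (s x) = Real.exp (e ^ 2 * A x / 2 + K1 * e ^ 3) * E x := by
    intro x
    show Real.exp (e ^ 2 * A x / 2 + K1 * e ^ 3 - ∑ i, g (V.mulVec x i))
      = Real.exp (e ^ 2 * A x / 2 + K1 * e ^ 3) * Real.exp (-∑ i, g (V.mulVec x i))
    rw [← Real.exp_add, sub_eq_add_neg]
  have heF : ∀ x, |e * F x| ≤ 1 := by
    intro x
    rw [abs_mul, abs_of_pos he]
    calc e * |F x| ≤ e * C := mul_le_mul_of_nonneg_left (hF1 x) he.le
      _ ≤ 1 := by linarith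
  have heF' : ∀ x, |-(e * F x)| ≤ 1 := by
    intro x; rw [abs_neg]; exact heF x
  have hs0 : ∀ x, 0 ≤ e ^ 2 * A x / 2 + K1 * e ^ 3 := by
    intro x
    have := hA0 x
    positivity
  have hs1 : ∀ x, e ^ 2 * A x / 2 + K1 * e ^ 3 ≤ e ^ 2 * N := by
    intro x
    have h1 : e ^ 2 * A x ≤ e ^ 2 * M := mul_le_mul_of_nonneg_left (hA1 x) (sq_nonneg e)
    have h2 : K1 * e ^ 3 ≤ e ^ 2 * K1 := by
      have : e ^ 3 ≤ e ^ 2 := by
        have : e ^ 3 = e ^ 2 * e := by ring
        rw [this]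
        exact mul_le_of_le_one_right (by positivity) he1
      calc K1 * e ^ 3 ≤ K1 * e ^ 2 := mul_le_mul_of_nonneg_left this hK1n
        _ = e ^ 2 * K1 := by ring
    rw [hN]
    linarith
  have heN2 : e ^ 2 * N ≤ 1 := by
    have : e ^ 2 * N = e * (e * N) := by ring
    rw [this]
    have h1 : 0 ≤ e * N := by positivity
    nlinarith
  have ip : Integrable fun x => Real.exp (p x) := by
    have : (fun x => Real.exp (p x)) = fun x => Real.exp (e * F x) * E x := funext pe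
    rw [this]
    refine iB (Real.continuous_exp.comp (hFc.const_mul e)) (M := Real.exp 1) fun x => ?_
    rw [abs_of_pos (Real.exp_pos _)]
    exact Real.exp_le_exp.2 (abs_le.1 (heF x)).2
  have iq : Integrable fun x => Real.exp (q x) := by
    have : (fun x => Real.exp (q x)) = fun x => Real.exp (-(e * F x)) * E x := funext qe
    rw [this]
    refine iB (Real.continuous_exp.comp (hFc.const_mul e).neg) (M := Real.exp 1) fun x => ?_
    rw [abs_of_pos (Real.exp_pos _)]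
    exact Real.exp_le_exp.2 (abs_le.1 (heF' x)).2
  have is : Integrable fun x => Real.exp (s x) := by
    have : (fun x => Real.exp (s x))
      = fun x => Real.exp (e ^ 2 * A x / 2 + K1 * e ^ 3) * E x := funext se
    rw [this]
    refine iB (Real.continuous_exp.comp
      (((hAc.const_mul (e ^ 2)).div_const 2).add continuous_const)) (M := Real.exp 1) fun x => ?_
    rw [abs_of_pos (Real.exp_pos _)]
    exact Real.exp_le_exp.2 ((hs1 x).trans heN2)
  have hPL := bl_pl pc qc sc ip iq is (fun x y => by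
    have := bl_point V g D c L C f w h he heC4 x y
    exact this)
  refine bl_alg I0n I2n IAn hC he he1 heC I1b hK2n ?_ ?_ ?_
    (integral_nonneg fun x => (Real.exp_pos _).le) hPL
  · -- lower bound of the first integral
    have h1 : ∀ x, E x + e * (F x * E x) + e ^ 2 / 2 * (F x ^ 2 * E x) - C ^ 3 * e ^ 3 * E x
        ≤ Real.exp (p x) := by
      intro x
      rw [pe x]
      have h2 := bl_exp_lower (heF x)
      have h3 : |e * F x| ^ 3 ≤ C ^ 3 * e ^ 3 := by
        rw [abs_mul, abs_of_pos he, mul_pow, mul_comm]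
        have := pow_le_pow_left₀ (abs_nonneg _) (hF1 x) 3
        gcongr
      have h4 : (1 + e * F x + (e * F x) ^ 2 / 2 - C ^ 3 * e ^ 3) * E x
          ≤ Real.exp (e * F x) * E x :=
        mul_le_mul_of_nonneg_right (by linarith) (hE0 x).le
      refine le_trans (le_of_eq ?_) h4
      ring
    have h2 : ∫ x, (E x + e * (F x * E x) + e ^ 2 / 2 * (F x ^ 2 * E x) - C ^ 3 * e ^ 3 * E x)
        = I0 + e * I1 + e ^ 2 / 2 * I2 - C ^ 3 * e ^ 3 * I0 := by
      rw [integral_sub, integral_add, integral_add, integral_const_mul, integral_const_mul,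
        integral_const_mul]
      · exact iE
      · exact iF.const_mul e
      · exact iE.add (iF.const_mul e)
      · exact iF2.const_mul _
      · exact (iE.add (iF.const_mul e)).add (iF2.const_mul _)
      · exact iE.const_mul _
    have h3 := integral_mono (((iE.add (iF.const_mul e)).add (iF2.const_mul (e ^ 2 / 2))).sub
      (iE.const_mul (C ^ 3 * e ^ 3))) ip h1
    have h4 : I0 + e * I1 + e ^ 2 / 2 * I2 - C ^ 3 * e ^ 3 * I0 ≤ ∫ x, Real.exp (p x) := by
      rw [← h2]; exact h3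
    refine le_trans (le_of_eq ?_) h4
    ring
  · have h1 : ∀ x, E x - e * (F x * E x) + e ^ 2 / 2 * (F x ^ 2 * E x) - C ^ 3 * e ^ 3 * E x
        ≤ Real.exp (q x) := by
      intro x
      rw [qe x]
      have h2 := bl_exp_lower (heF' x)
      have h3 : |-(e * F x)| ^ 3 ≤ C ^ 3 * e ^ 3 := by
        rw [abs_neg, abs_mul, abs_of_pos he, mul_pow, mul_comm]
        have := pow_le_pow_left₀ (abs_nonneg _) (hF1 x) 3
        gcongr
      have h4 : (1 + -(e * F x) + (-(e * F x)) ^ 2 / 2 - C ^ 3 * e ^ 3) * E x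
          ≤ Real.exp (-(e * F x)) * E x :=
        mul_le_mul_of_nonneg_right (by linarith) (hE0 x).le
      refine le_trans (le_of_eq ?_) h4
      ring
    have h2 : ∫ x, (E x - e * (F x * E x) + e ^ 2 / 2 * (F x ^ 2 * E x) - C ^ 3 * e ^ 3 * E x)
        = I0 - e * I1 + e ^ 2 / 2 * I2 - C ^ 3 * e ^ 3 * I0 := by
      rw [integral_sub, integral_add, integral_sub, integral_const_mul, integral_const_mul,
        integral_const_mul]
      · exact iE
      · exact iF.const_mul e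
      · exact iE.sub (iF.const_mul e)
      · exact iF2.const_mul _
      · exact (iE.sub (iF.const_mul e)).add (iF2.const_mul _)
      · exact iE.const_mul _
    have h3 := integral_mono (((iE.sub (iF.const_mul e)).add (iF2.const_mul (e ^ 2 / 2))).sub
      (iE.const_mul (C ^ 3 * e ^ 3))) iq h1
    have h4 : I0 - e * I1 + e ^ 2 / 2 * I2 - C ^ 3 * e ^ 3 * I0 ≤ ∫ x, Real.exp (q x) := by
      rw [← h2]; exact h3
    refine le_trans (le_of_eq ?_) h4
    ring
  · -- upper bound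
    have h1 : ∀ x, Real.exp (s x) ≤ E x + e ^ 2 / 2 * (A x * E x) + e ^ 3 * K2 * E x := by
      intro x
      rw [se x]
      have h2 := bl_exp_upper (hs0 x) ((hs1 x).trans heN2)
      have h3 : (e ^ 2 * A x / 2 + K1 * e ^ 3) ^ 2 ≤ e ^ 3 * N ^ 2 := by
        calc (e ^ 2 * A x / 2 + K1 * e ^ 3) ^ 2 ≤ (e ^ 2 * N) ^ 2 :=
              pow_le_pow_left₀ (hs0 x) (hs1 x) 2
          _ = e ^ 4 * N ^ 2 := by ring
          _ ≤ e ^ 3 * N ^ 2 := by
              have h52 : e ^ 4 ≤ e ^ 3 := by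
                have : e ^ 4 = e ^ 3 * e := by ring
                rw [this]
                exact mul_le_of_le_one_right (by positivity) he1
              exact mul_le_mul_of_nonneg_right h52 (sq_nonneg N)
      have h4 : Real.exp (e ^ 2 * A x / 2 + K1 * e ^ 3) * E x
          ≤ (1 + e ^ 2 * A x / 2 + e ^ 3 * K2) * E x := by
        refine mul_le_mul_of_nonneg_right ?_ (hE0 x).le
        rw [hK2]
        linarith
      refine h4.trans (le_of_eq ?_)
      ring
    have h2 : ∫ x, (E x + e ^ 2 / 2 * (A x * E x) + e ^ 3 * K2 * E x)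
        = I0 + e ^ 2 / 2 * IA + e ^ 3 * K2 * I0 := by
      rw [integral_add, integral_add, integral_const_mul, integral_const_mul]
      · exact iE
      · exact iA.const_mul _
      · exact iE.add (iA.const_mul _)
      · exact iE.const_mul _
    have h3 := integral_mono is ((iE.add (iA.const_mul (e ^ 2 / 2))).add
      (iE.const_mul (e ^ 3 * K2))) h1
    have h4 : ∫ x, Real.exp (s x) ≤ I0 + e ^ 2 / 2 * IA + e ^ 3 * K2 * I0 := by
      rw [← h2]; exact h3
    refine le_trans h4 (le_of_eq ?_)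
    ring

end Pool.Agent.Helper44.GH
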